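import Pool.Agent.H24.RSM.Stmts

/-!
# GEN: the generic stabiliser is the pointwise stabiliser
-/

set_option linter.all false

open NormedSpace Topology Filter

namespace Pool.Agent.H48.RSM

section abs

variable {R : Type*} [NormedRing R] [StarRing R] [CStarRing R] [NormedAlgebra ℝ R]
  [StarModule ℝ R] [FiniteDimensional ℝ R]
variable {W : Type*} [NormedAddCommGroup W] [InnerProductSpace ℝ W] [FiniteDimensional ℝ W]

/-- The hypotheses on the representation. -/
structure Hyp (A : R) (π : R → (W →L[ℝ] W)) : Prop where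
  hA : star A = A
  cont : Continuous π
  diff : DifferentiableAt ℝ π 1
  mul : ∀ u ∈ unitary R, ∀ v ∈ unitary R, π (u * v) = (π u).comp (π v)
  iso : ∀ u ∈ unitary R, ∀ w, ‖π u w‖ = ‖w‖

/-- Skew adjoint elements commuting with `A`. -/
def kk (A : R) : Submodule ℝ R where
  carrier := {X | star X = -X ∧ Commute X A}
  add_mem' := by
    rintro a b ⟨h1, h2⟩ ⟨h3, h4⟩
    refine ⟨by rw [star_add, h1, h3]; abel, h2.add_left h4⟩
  zero_mem' := ⟨by simp, Commute.zero_left _⟩
  smul_mem' := by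
    rintro c x ⟨h1, h2⟩
    refine ⟨by rw [star_smul, h1]; simp, h2.smul_left c⟩

/-- The stabiliser. -/
def FF (A : R) (π : R → (W →L[ℝ] W)) (v : W) : Set R :=
  {u | u ∈ unitary R ∧ Commute u A ∧ π u v = v}

variable {A : R} {π : R → (W →L[ℝ] W)}

theorem Hyp.one (h : Hyp A π) (w : W) : π 1 w = w := by
  have h1 : (1 : R) ∈ unitary R := Submonoid.one_mem _
  have h2 := h.mul 1 h1 1 h1
  rw [mul_one] at h2
  have h3 : π 1 w = π 1 (π 1 w) := by
    conv_lhs => rw [h2]
    rfl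
  have h4 := h.iso 1 h1 (π 1 w - w)
  rw [map_sub, ← h3, sub_self, norm_zero] at h4
  exact sub_eq_zero.mp (norm_eq_zero.mp h4.symm)

theorem Hyp.mul_apply (h : Hyp A π) {u v : R} (hu : u ∈ unitary R) (hv : v ∈ unitary R) (w : W) :
    π (u * v) w = π u (π v w) := by
  rw [h.mul u hu v hv]; rfl

theorem Hyp.star_pi (h : Hyp A π) {u : R} (hu : u ∈ unitary R) (w : W) :
    π (star u) (π u w) = w := by
  rw [← h.mul_apply (Unitary.star_mem hu) hu, Unitary.star_mul_self_of_mem hu, h.one]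

theorem Hyp.pi_star (h : Hyp A π) {u : R} (hu : u ∈ unitary R) (w : W) :
    π u (π (star u) w) = w := by
  rw [← h.mul_apply hu (Unitary.star_mem hu), Unitary.mul_star_self_of_mem hu, h.one]

theorem Hyp.star_fix (h : Hyp A π) {u : R} (hu : u ∈ unitary R) {w : W} (hw : π u w = w) :
    π (star u) w = w := by
  conv_lhs => rw [← hw]
  exact h.star_pi hu w

theorem Hyp.inner (h : Hyp A π) {u : R} (hu : u ∈ unitary R) (x y : W) :
    inner ℝ (π u x) (π u y) = inner ℝ x y := by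
  rw [real_inner_eq_norm_add_mul_self_sub_norm_mul_self_sub_norm_mul_self_div_two,
    real_inner_eq_norm_add_mul_self_sub_norm_mul_self_sub_norm_mul_self_div_two, ← map_add,
    h.iso u hu, h.iso u hu, h.iso u hu]

theorem comm_star (hA : star A = A) {u : R} (hu : Commute u A) : Commute (star u) A := by
  have := hu.star_star
  rwa [hA] at this

theorem exp_unit {X : R} (hX : star X = -X) (t : ℝ) : exp (t • X) ∈ unitary R := by
  letI : NormedAlgebra ℚ R := .restrictScalars ℚ ℝ R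
  haveI : CompleteSpace R := FiniteDimensional.complete ℝ R
  apply exp_mem_unitary_of_mem_skewAdjoint
  rw [skewAdjoint.mem_iff, star_smul, hX]
  simp

theorem exp_comm {X B : R} (hX : Commute X B) (t : ℝ) : Commute (exp (t • X)) B := by
  letI : NormedAlgebra ℚ R := .restrictScalars ℚ ℝ R
  haveI : CompleteSpace R := FiniteDimensional.complete ℝ R
  exact (hX.smul_left t).exp_left

theorem exp_deriv (X : R) : HasDerivAt (fun t : ℝ => exp (t • X)) X 0 := by
  letI : NormedAlgebra ℚ R := .restrictScalars ℚ ℝ R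
  haveI : CompleteSpace R := FiniteDimensional.complete ℝ R
  have := hasDerivAt_exp_smul_const (𝕂 := ℝ) X 0
  simpa using this

theorem exp_add' (X : R) (s t : ℝ) : exp ((s + t) • X) = exp (s • X) * exp (t • X) := by
  letI : NormedAlgebra ℚ R := .restrictScalars ℚ ℝ R
  haveI : CompleteSpace R := FiniteDimensional.complete ℝ R
  rw [add_smul]
  exact exp_add_of_commute (((Commute.refl X).smul_left s).smul_right t)

theorem exp_zero' (X : R) : exp ((0 : ℝ) • X) = 1 := by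
  letI : NormedAlgebra ℚ R := .restrictScalars ℚ ℝ R
  haveI : CompleteSpace R := FiniteDimensional.complete ℝ R
  rw [zero_smul, exp_zero]

theorem Hyp.curve (h : Hyp A π) {γ : ℝ → R} {X : R} (h0 : γ 0 = 1) (h1 : HasDerivAt γ X 0)
    (w : W) : HasDerivAt (fun t => π (γ t) w) (fderiv ℝ π 1 X w) 0 := by
  have h2 : HasFDerivAt π (fderiv ℝ π 1) (γ 0) := by rw [h0]; exact h.diff.hasFDerivAt
  have h3 := h2.comp_hasDerivAt 0 h1
  exact (ContinuousLinearMap.apply ℝ W w).hasFDerivAt.comp_hasDerivAt 0 h3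

theorem Hyp.conj (h : Hyp A π) {u X : R} (hu : u ∈ unitary R) (hX : star X = -X) (w : W) :
    fderiv ℝ π 1 (u * X * star u) w = π u (fderiv ℝ π 1 X (π (star u) w)) := by
  have h1 : HasDerivAt (fun t : ℝ => u * exp (t • X) * star u) (u * X * star u) 0 :=
    ((exp_deriv X).const_mul u).mul_const (star u)
  have h2 := h.curve (by
    show u * exp ((0 : ℝ) • X) * star u = 1
    rw [exp_zero', mul_one, Unitary.mul_star_self_of_mem hu]) h1 w
  have h3 := h.curve (exp_zero' X) (exp_deriv X) (π (star u) w)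
  have h4 := (π u).hasFDerivAt.comp_hasDerivAt 0 h3
  refine h2.unique ?_
  convert h4 using 1
  funext t
  rw [h.mul_apply (mul_mem hu (exp_unit hX t)) (Unitary.star_mem hu),
    h.mul_apply hu (exp_unit hX t)]
  rfl

theorem Hyp.conj' (h : Hyp A π) {u X : R} (hu : u ∈ unitary R) (hX : star X = -X) {v : W}
    (hv : π u v = v) :
    fderiv ℝ π 1 (u * X * star u) v = π u (fderiv ℝ π 1 X v) := by
  rw [h.conj hu hX, h.star_fix hu hv]

theorem Hyp.integ (h : Hyp A π) {X : R} (hX : star X = -X) {w : W}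
    (hw : fderiv ℝ π 1 X w = 0) (t : ℝ) : π (exp (t • X)) w = w := by
  have h1 : ∀ t : ℝ, HasDerivAt (fun s => π (exp (s • X)) w) 0 t := by
    intro t
    have h2 := h.curve (exp_zero' X) (exp_deriv X) w
    rw [hw] at h2
    have h3 := (π (exp (t • X))).hasFDerivAt.comp_hasDerivAt 0 h2
    rw [map_zero] at h3
    have h4 : HasDerivAt (fun s : ℝ => s - t) 1 t := (hasDerivAt_id t).sub_const t
    have h5 : HasDerivAt ((⇑(π (exp (t • X))) ∘ fun s => (π (exp (s • X))) w) ∘ fun s => s - t)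
        ((0 : W)) t := by
      have := HasDerivAt.scomp (h := fun s : ℝ => s - t) t (by simpa using h3) h4
      simpa using this
    refine h5.congr_of_eventuallyEq (Eventually.of_forall fun s => ?_)
    show π (exp (s • X)) w = π (exp (t • X)) (π (exp ((s - t) • X)) w)
    rw [← h.mul_apply (exp_unit hX _) (exp_unit hX _), ← exp_add',
      show t + (s - t) = s by ring]
  have h6 := is_const_of_deriv_eq_zero (f := fun s : ℝ => π (exp (s • X)) w)
    (fun s => (h1 s).differentiableAt) (fun s => (h1 s).deriv) t 0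
  rw [exp_zero', h.one] at h6
  exact h6

/-- The infinitesimal orbit map. -/
noncomputable def Lv (A : R) (π : R → (W →L[ℝ] W)) (v : W) : kk A →ₗ[ℝ] W :=
  (((ContinuousLinearMap.apply ℝ W v).comp (fderiv ℝ π 1)).toLinearMap).comp (kk A).subtype

theorem Lv_apply (v : W) (X : kk A) : Lv A π v X = fderiv ℝ π 1 (X : R) v := rfl

theorem Lv_add (v w : W) (X : kk A) (t : ℝ) :
    Lv A π (v + t • w) X = Lv A π v X + t • fderiv ℝ π 1 (X : R) w := by
  rw [Lv_apply, Lv_apply, map_add, map_smul]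

/-- Maximal rank. -/
theorem exists_max (V : Submodule ℝ W) : ∃ v ∈ V, ∀ v' ∈ V,
    Module.finrank ℝ (LinearMap.range (Lv A π v')) ≤
      Module.finrank ℝ (LinearMap.range (Lv A π v)) := by
  classical
  let S : Set ℕ := {m | ∃ v ∈ V, Module.finrank ℝ (LinearMap.range (Lv A π v)) = m}
  have hne : S.Nonempty := ⟨_, 0, V.zero_mem, rfl⟩
  have hbd : BddAbove S := ⟨Module.finrank ℝ W, by
    rintro m ⟨v, -, rfl⟩
    exact Submodule.finrank_le _⟩
  obtain ⟨v, hv, hm⟩ := Nat.sSup_mem hne hbd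
  exact ⟨v, hv, fun v' hv' => by rw [hm]; exact le_csSup hbd ⟨v', hv', rfl⟩⟩

theorem rank_lemma {V : Submodule ℝ W} {v : W} (hv : v ∈ V)
    (hmax : ∀ v' ∈ V, Module.finrank ℝ (LinearMap.range (Lv A π v')) ≤
      Module.finrank ℝ (LinearMap.range (Lv A π v)))
    (X : kk A) (hX : Lv A π v X = 0) {S : W} (hS : S ∈ V) :
    fderiv ℝ π 1 (X : R) S ∈ LinearMap.range (Lv A π v) := by
  by_contra hcon
  set r := Module.finrank ℝ (LinearMap.range (Lv A π v)) with hr
  let b := Module.finBasis ℝ (LinearMap.range (Lv A π v))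
  have hY : ∀ i, ∃ Y : kk A, Lv A π v Y = (b i : W) := fun i => (b i).2
  choose Y hY using hY
  let f : ℝ → (Fin (r + 1) → W) := fun t =>
    Fin.cons (fderiv ℝ π 1 (X : R) S) (fun i => Lv A π (v + t • S) (Y i))
  have hf0 : LinearIndependent ℝ (f 0) := by
    show LinearIndependent ℝ (Fin.cons (fderiv ℝ π 1 (X : R) S)
      (fun i => Lv A π (v + (0 : ℝ) • S) (Y i)) : Fin (r + 1) → W)
    rw [linearIndependent_fin_cons]
    have e1 : (fun i => Lv A π (v + (0 : ℝ) • S) (Y i)) = fun i => (b i : W) := by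
      funext i
      rw [zero_smul, add_zero, hY]
    rw [e1]
    have e2 : LinearIndependent ℝ (fun i => (b i : W)) :=
      b.linearIndependent.map' (Submodule.subtype _) (Submodule.ker_subtype _)
    refine ⟨e2, ?_⟩
    intro hmem
    apply hcon
    have e3 : Submodule.span ℝ (Set.range fun i => (b i : W)) ≤ LinearMap.range (Lv A π v) := by
      rw [Submodule.span_le]
      rintro _ ⟨i, rfl⟩
      exact (b i).2
    exact e3 hmem
  have hfc : Continuous f := by
    refine continuous_pi fun i => ?_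
    refine Fin.cases ?_ (fun j => ?_) i
    · simp only [f, Fin.cons_zero]
      exact continuous_const
    · simp only [f, Fin.cons_succ, Lv_add]
      fun_prop
  have hev : ∀ᶠ t in 𝓝 (0 : ℝ), LinearIndependent ℝ (f t) :=
    hfc.continuousAt.eventually (hf0.eventually)
  have hev2 : ∀ᶠ t in 𝓝[≠] (0 : ℝ), LinearIndependent ℝ (f t) := hev.filter_mono nhdsWithin_le_nhds
  obtain ⟨t, ht, ht0⟩ := (hev2.and self_mem_nhdsWithin).exists
  have ht0' : t ≠ 0 := ht0
  have hmem : ∀ i, f t i ∈ LinearMap.range (Lv A π (v + t • S)) := by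
    intro i
    refine Fin.cases ?_ (fun j => ?_) i
    · refine ⟨t⁻¹ • X, ?_⟩
      rw [map_smul, Lv_add, hX, zero_add, smul_smul, inv_mul_cancel₀ ht0', one_smul]
      simp only [f, Fin.cons_zero]
    · refine ⟨Y j, ?_⟩
      simp only [f, Fin.cons_succ]
  have hli : LinearIndependent ℝ
      (fun i => (⟨f t i, hmem i⟩ : LinearMap.range (Lv A π (v + t • S)))) :=
    LinearIndependent.of_comp (Submodule.subtype _) ht
  have hcard := hli.fintype_card_le_finrank
  rw [Fintype.card_fin] at hcard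
  have := hmax (v + t • S) (V.add_mem hv (V.smul_mem t hS))
  omega

theorem kk_conj {u : R} (hA : star A = A) (hu : u ∈ unitary R) (huA : Commute u A) (X : kk A) :
    u * (X : R) * star u ∈ kk A := by
  refine ⟨?_, ?_⟩
  · rw [star_mul, star_mul, star_star, X.2.1]
    simp [mul_assoc]
  · exact (huA.mul_left X.2.2).mul_left (comm_star hA huA)

theorem range_map (h : Hyp A π) {u : R} (hu : u ∈ unitary R) (huA : Commute u A) {v : W}
    (hv : π u v = v) {y : W} (hy : y ∈ LinearMap.range (Lv A π v)) :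
    π u y ∈ LinearMap.range (Lv A π v) := by
  obtain ⟨X, rfl⟩ := hy
  refine ⟨⟨_, kk_conj h.hA hu huA X⟩, ?_⟩
  rw [Lv_apply, Lv_apply]
  exact h.conj' hu X.2.1 hv

theorem orth_map (h : Hyp A π) {u : R} (hu : u ∈ unitary R) (huA : Commute u A) {v : W}
    (hv : π u v = v) {y : W} (hy : y ∈ (LinearMap.range (Lv A π v))ᗮ) :
    π u y ∈ (LinearMap.range (Lv A π v))ᗮ := by
  rw [Submodule.mem_orthogonal'] at hy ⊢
  intro z hz
  have h1 := range_map h (Unitary.star_mem hu) (comm_star h.hA huA) (h.star_fix hu hv) hz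
  have h2 := hy _ h1
  rw [← h.inner hu, h.pi_star hu] at h2
  exact h2

theorem decomp_unique {L : Submodule ℝ W} {a b c d : W} (ha : a ∈ L) (hb : b ∈ Lᗮ) (hc : c ∈ L)
    (hd : d ∈ Lᗮ) (e : a + b = c + d) : a = c := by
  have h1 : a - c ∈ L := L.sub_mem ha hc
  have h2 : a - c ∈ Lᗮ := by
    have : a - c = d - b := by
      rw [sub_eq_sub_iff_add_eq_add, e, add_comm]
    rw [this]
    exact Lᗮ.sub_mem hd hb
  have h3 : a - c ∈ L ⊓ Lᗮ := ⟨h1, h2⟩
  rw [Submodule.inf_orthogonal_eq_bot, Submodule.mem_bot] at h3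
  exact sub_eq_zero.mp h3

/-- Step 1. -/
theorem step1 (h : Hyp A π) (G : Subgroup (unitary R)) [Finite G]
    (hGA : ∀ g ∈ G, Commute (g : R) A)
    (hM : ∀ T : R, (∀ g ∈ G, Commute T (g : R)) → Commute T A → ∀ X : R, Commute X A →
      Commute T X)
    (V : Submodule ℝ W) (hV : ∀ v ∈ V, ∀ g ∈ G, π (g : R) v = v)
    (hst : ∀ u : unitary R, Commute (u : R) A → (∀ v ∈ V, π (u : R) v = v) → u ∈ G) :
    ∃ v ∈ V, ∀ X ∈ kk A, fderiv ℝ π 1 X v = 0 → X = 0 := by
  classical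
  haveI : Fintype G := Fintype.ofFinite G
  obtain ⟨v, hv, hmax⟩ := exists_max (A := A) (π := π) V
  refine ⟨v, hv, fun X hX hXv => ?_⟩
  set L := LinearMap.range (Lv A π v) with hL
  have key : ∀ S ∈ V, fderiv ℝ π 1 X S = 0 := by
    intro S hS
    have hDL : fderiv ℝ π 1 X S ∈ L := rank_lemma hv hmax ⟨X, hX⟩ hXv hS
    -- decomposition
    obtain ⟨S2, hS2, S1, hS1, hS12⟩ : ∃ S2 ∈ L, ∃ S1 ∈ Lᗮ, S2 + S1 = S := by
      have h1 : S ∈ L ⊔ Lᗮ := by
        rw [Submodule.sup_orthogonal_of_hasOrthogonalProjection]; trivial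
      obtain ⟨a, ha, b, hb, hab⟩ := Submodule.mem_sup.mp h1
      exact ⟨a, ha, b, hb, hab⟩
    have hgS2 : ∀ g ∈ G, π (g : R) S2 = S2 := by
      intro g hg
      have e1 := hV S hS g hg
      have e2 : π (g : R) S2 + π (g : R) S1 = S2 + S1 := by rw [← map_add, hS12, e1]
      exact decomp_unique (range_map h g.2 (hGA g hg) (hV v hv g hg) hS2)
        (orth_map h g.2 (hGA g hg) (hV v hv g hg) hS1) hS2 hS1 e2
    obtain ⟨τ0, hτ0⟩ := hS2
    rw [Lv_apply] at hτ0
    let τ : R := (Fintype.card G : ℝ)⁻¹ • ∑ g : G, ((g : unitary R) : R) * (τ0 : R) *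
      star ((g : unitary R) : R)
    have hcard : (Fintype.card G : ℝ) ≠ 0 := by
      exact_mod_cast Fintype.card_ne_zero
    have hτk : τ ∈ kk A := by
      refine (kk A).smul_mem _ ((kk A).sum_mem fun g _ => ?_)
      exact kk_conj h.hA (g : unitary R).2 (hGA _ g.2) τ0
    have hτv : fderiv ℝ π 1 τ v = S2 := by
      have e1 : ∀ g : G, fderiv ℝ π 1 (((g : unitary R) : R) * (τ0 : R) *
          star ((g : unitary R) : R)) v = S2 := by
        intro g
        rw [h.conj' (g : unitary R).2 τ0.2.1 (hV v hv _ g.2), hτ0, hgS2 _ g.2]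
      have e2 : fderiv ℝ π 1 τ v = (Fintype.card G : ℝ)⁻¹ • ∑ g : G,
          fderiv ℝ π 1 (((g : unitary R) : R) * (τ0 : R) * star ((g : unitary R) : R)) v := by
        simp only [τ, map_smul, map_sum, ContinuousLinearMap.smul_apply,
          ContinuousLinearMap.sum_apply]
      rw [e2, Finset.sum_congr rfl (fun g _ => e1 g), Finset.sum_const, Finset.card_univ,
        ← Nat.cast_smul_eq_nsmul ℝ, smul_smul, inv_mul_cancel₀ hcard, one_smul]
    have hτG : ∀ g ∈ G, Commute τ (g : R) := by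
      intro g hg
      show τ * (g : R) = (g : R) * τ
      simp only [τ, smul_mul_assoc, mul_smul_comm]
      congr 1
      rw [Finset.sum_mul, Finset.mul_sum]
      refine Fintype.sum_equiv (Equiv.mulLeft (⟨g, hg⟩ : G)⁻¹) _ _ fun x => ?_
      have e1 : (((Equiv.mulLeft (⟨g, hg⟩ : G)⁻¹ x : G) : unitary R) : R)
          = star (g : R) * ((x : unitary R) : R) := rfl
      rw [e1, star_mul, star_star]
      have e2 : (g : R) * star (g : R) = 1 := Unitary.mul_star_self_of_mem g.2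
      calc ((x : unitary R) : R) * (τ0 : R) * star ((x : unitary R) : R) * (g : R)
          = ((g : R) * star (g : R)) * (((x : unitary R) : R) * (τ0 : R) *
            (star ((x : unitary R) : R) * (g : R))) := by rw [e2, one_mul]; noncomm_ring
        _ = _ := by noncomm_ring
    have hτX : Commute τ X := hM τ hτG hτk.2 X hX.2
    -- the one parameter group fixes S2
    have hfixv : ∀ s : ℝ, π (exp (s • X)) v = v := h.integ hX.1 hXv
    have hfixS2 : ∀ s : ℝ, π (exp (s • X)) S2 = S2 := by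
      intro s
      have e1 : exp (s • X) * τ * star (exp (s • X)) = τ := by
        have : Commute (exp (s • X)) τ := exp_comm hτX.symm s
        rw [this.eq, mul_assoc, Unitary.mul_star_self_of_mem (exp_unit hX.1 s), mul_one]
      have e2 := h.conj' (exp_unit hX.1 s) hτk.1 (hfixv s)
      rw [e1, hτv] at e2
      exact e2.symm
    have hDS2 : fderiv ℝ π 1 X S2 = 0 := by
      have e1 := h.curve (exp_zero' X) (exp_deriv X) S2
      have e2 : (fun t : ℝ => π (exp (t • X)) S2) = fun _ => S2 := funext hfixS2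
      rw [e2] at e1
      exact e1.unique (hasDerivAt_const _ _)
    have hDS1 : fderiv ℝ π 1 X S1 ∈ Lᗮ := by
      rw [Submodule.mem_orthogonal']
      intro y hy
      have e1 := h.curve (exp_zero' X) (exp_deriv X) S1
      have e3 : HasDerivAt (fun t : ℝ => inner ℝ (π (exp (t • X)) S1) y)
          (inner ℝ (fderiv ℝ π 1 X S1) y) 0 := by
        have := e1.inner ℝ (hasDerivAt_const (0 : ℝ) y)
        simpa using this
      have e4 : (fun t : ℝ => inner ℝ (π (exp (t • X)) S1) y) = fun _ => (0 : ℝ) := by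
        funext t
        have := orth_map h (exp_unit hX.1 t) (exp_comm hX.2 t) (hfixv t) hS1
        rw [Submodule.mem_orthogonal'] at this
        exact this y hy
      rw [e4] at e3
      exact e3.unique (hasDerivAt_const _ _)
    have hfin : fderiv ℝ π 1 X S = fderiv ℝ π 1 X S1 := by
      rw [← hS12, map_add, hDS2, zero_add]
    have h3 : fderiv ℝ π 1 X S ∈ L ⊓ Lᗮ := ⟨hDL, by rw [hfin]; exact hDS1⟩
    rwa [Submodule.inf_orthogonal_eq_bot, Submodule.mem_bot] at h3
  -- exp (s X) lies in G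
  have hexpG : ∀ s : ℝ, exp (s • X) ∈ ((fun g : unitary R => (g : R)) '' (G : Set (unitary R))) := by
    intro s
    refine ⟨⟨exp (s • X), exp_unit hX.1 s⟩, ?_, rfl⟩
    exact hst _ (exp_comm hX.2 s) fun w hw => h.integ hX.1 (key w hw) s
  have hGfin : ((fun g : unitary R => (g : R)) '' (G : Set (unitary R))).Finite :=
    Set.Finite.image _ (Set.toFinite _)
  have hcl : IsClosed (((fun g : unitary R => (g : R)) '' (G : Set (unitary R))) \ {1}) :=
    (hGfin.subset Set.diff_subset).isClosed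
  have hcont : ContinuousAt (fun t : ℝ => exp (t • X)) 0 := (exp_deriv X).continuousAt
  have hev : ∀ᶠ t in 𝓝 (0 : ℝ), exp (t • X) ∈
      (((fun g : unitary R => (g : R)) '' (G : Set (unitary R))) \ {1})ᶜ := by
    apply hcont.eventually
    apply hcl.isOpen_compl.mem_nhds
    show exp ((0 : ℝ) • X) ∈ _
    rw [exp_zero']
    intro hh
    exact hh.2 rfl
  have hev2 : (fun t : ℝ => exp (t • X)) =ᶠ[𝓝 0] fun _ => (1 : R) := by
    filter_upwards [hev] with t ht
    by_contra hne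
    exact ht ⟨hexpG t, hne⟩
  have hd := (exp_deriv X).congr_of_eventuallyEq hev2.symm
  exact hd.unique (hasDerivAt_const _ _)

/-! ### Step 2 -/

theorem isCompact_K (A : R) : IsCompact {u : R | u ∈ unitary R ∧ Commute u A} := by
  haveI : ProperSpace R := FiniteDimensional.proper ℝ R
  refine Metric.isCompact_of_isClosed_isBounded ?_ ?_
  · have e : {u : R | u ∈ unitary R ∧ Commute u A} =
        {u | star u * u = 1} ∩ {u | u * star u = 1} ∩ {u | u * A = A * u} := by
      ext u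
      simp only [Set.mem_inter_iff, Set.mem_ofPred_eq, Unitary.mem_iff]
      exact Iff.rfl
    rw [e]
    refine ((isClosed_eq ?_ ?_).inter (isClosed_eq ?_ ?_)).inter (isClosed_eq ?_ ?_) <;> fun_prop
  · refine (Metric.isBounded_closedBall (x := (0 : R)) (r := ‖(1 : R)‖)).subset ?_
    rintro u ⟨hu, -⟩
    rw [mem_closedBall_zero_iff]
    have := CStarRing.norm_mem_unitary_mul (1 : R) hu
    rw [mul_one] at this
    exact this.le

theorem isCompact_FF (h : Hyp A π) (v : W) : IsCompact (FF A π v) := by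
  have e : FF A π v = {u : R | u ∈ unitary R ∧ Commute u A} ∩ {u | π u v = v} := by
    ext u
    simp only [FF, Set.mem_inter_iff, Set.mem_ofPred_eq, and_assoc]
  rw [e]
  refine (isCompact_K A).inter_right (isClosed_eq ?_ continuous_const)
  exact (ContinuousLinearMap.apply ℝ W v).continuous.comp h.cont

theorem FF_mul (h : Hyp A π) {v : W} {a b : R} (ha : a ∈ FF A π v) (hb : b ∈ FF A π v) :
    a * b ∈ FF A π v :=
  ⟨mul_mem ha.1 hb.1, ha.2.1.mul_left hb.2.1, by
    rw [h.mul_apply ha.1 hb.1, hb.2.2, ha.2.2]⟩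

theorem FF_star (h : Hyp A π) {v : W} {a : R} (ha : a ∈ FF A π v) : star a ∈ FF A π v :=
  ⟨Unitary.star_mem ha.1, comm_star h.hA ha.2.1, h.star_fix ha.1 ha.2.2⟩

theorem FF_sep (h : Hyp A π) {v : W} {δ : ℝ}
    (hδ : ∀ u ∈ FF A π v, ‖u - 1‖ < δ → u = 1) {a b : R} (ha : a ∈ FF A π v)
    (hb : b ∈ FF A π v) (hab : ‖a - b‖ < δ) : a = b := by
  have h1 : star b * a = 1 := by
    apply hδ _ (FF_mul h (FF_star h hb) ha)
    have e : star b * a - 1 = star b * (a - b) := by
      rw [mul_sub, Unitary.star_mul_self_of_mem hb.1]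
    rw [e, CStarRing.norm_mem_unitary_mul _ (Unitary.star_mem hb.1)]
    exact hab
  calc a = (b * star b) * a := by rw [Unitary.mul_star_self_of_mem hb.1, one_mul]
    _ = b := by rw [mul_assoc, h1, mul_one]

theorem FF_finite (h : Hyp A π) {v : W} {δ : ℝ} (hδ0 : 0 < δ)
    (hδ : ∀ u ∈ FF A π v, ‖u - 1‖ < δ → u = 1) : (FF A π v).Finite := by
  refine (isCompact_FF h v).finite ?_
  constructor
  refine DiscreteTopology.of_forall_le_dist hδ0 ?_
  intro a b hab
  by_contra hcon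
  apply hab
  apply Subtype.ext
  apply FF_sep h hδ a.2 b.2
  have : dist (a : R) (b : R) < δ := not_le.mp hcon
  rwa [dist_eq_norm] at this

theorem L1 (h : Hyp A π) {v : W} (hv : ∀ X ∈ kk A, fderiv ℝ π 1 X v = 0 → X = 0) :
    ∃ δ > 0, ∃ η > 0, ∀ v', ‖v' - v‖ < η → (∀ u ∈ FF A π v', ‖u - 1‖ < δ → u = 1) ∧
      (∀ X ∈ kk A, fderiv ℝ π 1 X v' = 0 → X = 0) := by
  have hker : LinearMap.ker (Lv A π v) = ⊥ := by
    rw [LinearMap.ker_eq_bot']
    intro X hX
    exact Subtype.ext (hv X X.2 hX)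
  obtain ⟨K, K0, hK⟩ := LinearMap.exists_antilipschitzWith (Lv A π v) hker
  have hK' : ∀ X ∈ kk A, ‖X‖ ≤ K * ‖fderiv ℝ π 1 X v‖ := by
    intro X hX
    have := hK.le_mul_dist ⟨X, hX⟩ 0
    rw [map_zero, dist_zero_right, dist_zero_right, Lv_apply] at this
    exact this
  have K0' : (0 : ℝ) < K := by exact_mod_cast K0
  set B := ‖fderiv ℝ π 1‖ with hB
  have hB0 : 0 ≤ B := by rw [hB]; exact norm_nonneg (fderiv ℝ π 1)
  set N := ‖v‖ + 1 with hN
  have hN0 : 0 < N := by positivity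
  have hDle : ∀ (X : R) (w : W), ‖fderiv ℝ π 1 X w‖ ≤ B * ‖X‖ * ‖w‖ := by
    intro X w
    calc ‖fderiv ℝ π 1 X w‖ ≤ ‖fderiv ℝ π 1 X‖ * ‖w‖ := ContinuousLinearMap.le_opNorm _ _
      _ ≤ _ := by
        gcongr
        exact ContinuousLinearMap.le_opNorm _ _
  -- η
  have hη : ∀ v' : W, ‖v' - v‖ < min 1 (1 / (2 * K * (B + 1))) → ∀ X ∈ kk A,
      ‖X‖ ≤ 2 * K * ‖fderiv ℝ π 1 X v'‖ := by
    intro v' hv' X hX
    have h1 : ‖v' - v‖ < 1 / (2 * K * (B + 1)) := hv'.trans_le (min_le_right _ _)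
    have h2 := hK' X hX
    have h3 : fderiv ℝ π 1 X v = fderiv ℝ π 1 X v' - fderiv ℝ π 1 X (v' - v) := by
      rw [map_sub]; abel
    have h4 : ‖fderiv ℝ π 1 X v‖ ≤ ‖fderiv ℝ π 1 X v'‖ + B * ‖X‖ * ‖v' - v‖ := by
      rw [h3]
      refine (norm_sub_le _ _).trans ?_
      gcongr
      exact hDle _ _
    have h5 : K * (B * ‖X‖ * ‖v' - v‖) ≤ ‖X‖ / 2 := by
      have h6 : K * (B * ‖X‖ * ‖v' - v‖) ≤ K * ((B + 1) * ‖X‖ * (1 / (2 * K * (B + 1)))) := by
        gcongr
        linarith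
      refine h6.trans (le_of_eq ?_)
      field_simp
    have h7 : K * ‖fderiv ℝ π 1 X v‖ ≤ K * ‖fderiv ℝ π 1 X v'‖ + K * (B * ‖X‖ * ‖v' - v‖) := by
      rw [← mul_add]
      gcongr
    linarith
  -- the derivative
  have hdiff := h.diff.hasFDerivAt
  rw [hasFDerivAt_iff_isLittleO_nhds_zero] at hdiff
  have hε : 0 < 1 / (16 * K * N) := by positivity
  have hd := hdiff.def hε
  rw [Metric.eventually_nhds_iff] at hd
  obtain ⟨δ₀, hδ₀, hd⟩ := hd
  refine ⟨min δ₀ (min 1 (1 / (8 * K * (B + 1) * N))), by positivity, min 1 (1 / (2 * K * (B + 1))),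
    by positivity, fun v' hv' => ⟨?_, ?_⟩⟩
  · intro u hu hu1
    have hu2 : ‖u - 1‖ < δ₀ := hu1.trans_le (min_le_left _ _)
    have hu3 : ‖u - 1‖ < 1 := hu1.trans_le ((min_le_right _ _).trans (min_le_left _ _))
    have hu4 : ‖u - 1‖ < 1 / (8 * K * (B + 1) * N) :=
      hu1.trans_le ((min_le_right _ _).trans (min_le_right _ _))
    set Δ := u - 1 with hΔ
    have hv'N : ‖v'‖ ≤ N := by
      have h1 : ‖v' - v‖ < 1 := hv'.trans_le (min_le_left _ _)
      have h2 : ‖v'‖ ≤ ‖v' - v‖ + ‖v‖ := by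
        have := norm_add_le (v' - v) v
        rwa [sub_add_cancel] at this
      linarith
    have e0 : Δ + star Δ = - (Δ * star Δ) := by
      have h1 : u * star u = 1 := Unitary.mul_star_self_of_mem hu.1
      rw [hΔ, star_sub, star_one]
      have : (u - 1) * (star u - 1) = u * star u - u - star u + 1 := by noncomm_ring
      rw [this, h1]
      abel
    let Y : R := (2 : ℝ)⁻¹ • (Δ - star Δ)
    have hYk : Y ∈ kk A := by
      refine (kk A).smul_mem _ ⟨?_, ?_⟩
      · rw [star_sub, star_star]; abel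
      · have h1 : Commute Δ A := hu.2.1.sub_left (Commute.one_left A)
        have h2 : Commute (star Δ) A := comm_star h.hA h1
        exact h1.sub_left h2
    have hYD : Y = Δ + (2 : ℝ)⁻¹ • (Δ * star Δ) := by
      have h1 : Δ * star Δ = - (Δ + star Δ) := by rw [e0, neg_neg]
      simp only [Y]
      rw [h1]
      have h2 : Δ = (2 : ℝ)⁻¹ • (Δ + Δ) := by
        rw [← two_smul ℝ Δ, smul_smul]; norm_num
      conv_rhs => rw [h2]
      rw [← smul_add]
      congr 1
      rw [← h2]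
      abel
    have hns : ‖Δ * star Δ‖ ≤ ‖Δ‖ * ‖Δ‖ := by
      refine (norm_mul_le _ _).trans ?_
      rw [norm_star]
    have hY2 : ‖Δ‖ ≤ 2 * ‖Y‖ := by
      have h1 : Δ = Y - (2 : ℝ)⁻¹ • (Δ * star Δ) := by rw [hYD]; abel
      have h2 : ‖Δ‖ ≤ ‖Y‖ + ‖(2 : ℝ)⁻¹ • (Δ * star Δ)‖ := by
        conv_lhs => rw [h1]
        exact norm_sub_le _ _
      have h3 : ‖(2 : ℝ)⁻¹ • (Δ * star Δ)‖ ≤ ‖Δ‖ / 2 := by
        rw [norm_smul]
        have : ‖Δ‖ * ‖Δ‖ ≤ ‖Δ‖ * 1 := by gcongr
        have h4 : ‖(2 : ℝ)⁻¹‖ = 1 / 2 := by norm_num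
        rw [h4]
        nlinarith
      linarith
    have hY3 := hη v' hv' Y hYk
    have hY4 : ‖fderiv ℝ π 1 Y v'‖ ≤ 1 / (16 * K * N) * ‖Δ‖ * N + B * (‖Δ‖ * ‖Δ‖ / 2) * N := by
      have h1 : fderiv ℝ π 1 Y v' = fderiv ℝ π 1 Δ v' +
          fderiv ℝ π 1 ((2 : ℝ)⁻¹ • (Δ * star Δ)) v' := by
        rw [hYD, map_add]; rfl
      have h2 : ‖π (1 + Δ) - π 1 - fderiv ℝ π 1 Δ‖ ≤ 1 / (16 * K * N) * ‖Δ‖ := by
        apply hd
        rw [dist_zero_right]
        exact hu2
      have h3 : (π (1 + Δ) - π 1 - fderiv ℝ π 1 Δ) v' = - fderiv ℝ π 1 Δ v' := by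
        have : 1 + Δ = u := by rw [hΔ]; abel
        rw [this]
        show π u v' - π 1 v' - fderiv ℝ π 1 Δ v' = _
        rw [hu.2.2, h.one]
        abel
      have h4 : ‖fderiv ℝ π 1 Δ v'‖ ≤ 1 / (16 * K * N) * ‖Δ‖ * N := by
        rw [← norm_neg, ← h3]
        refine (ContinuousLinearMap.le_opNorm _ _).trans ?_
        gcongr
      have h5 : ‖fderiv ℝ π 1 ((2 : ℝ)⁻¹ • (Δ * star Δ)) v'‖ ≤ B * (‖Δ‖ * ‖Δ‖ / 2) * N := by
        refine (hDle _ _).trans ?_
        have h6 : ‖(2 : ℝ)⁻¹ • (Δ * star Δ)‖ ≤ ‖Δ‖ * ‖Δ‖ / 2 := by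
          rw [norm_smul]
          have h4 : ‖(2 : ℝ)⁻¹‖ = 1 / 2 := by norm_num
          rw [h4]
          linarith
        gcongr
      rw [h1]
      exact (norm_add_le _ _).trans (add_le_add h4 h5)
    have h8 : ‖Δ‖ ≤ ‖Δ‖ / 2 := by
      have h9 : ‖Δ‖ ≤ 4 * K * (1 / (16 * K * N) * ‖Δ‖ * N + B * (‖Δ‖ * ‖Δ‖ / 2) * N) := by
        calc ‖Δ‖ ≤ 2 * (2 * K * ‖fderiv ℝ π 1 Y v'‖) := by linarith
          _ = 4 * K * ‖fderiv ℝ π 1 Y v'‖ := by ring
          _ ≤ _ := by gcongr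
      have h10 : 4 * K * (1 / (16 * K * N) * ‖Δ‖ * N) = ‖Δ‖ / 4 := by
        field_simp
        norm_num
      have h11 : 4 * K * (B * (‖Δ‖ * ‖Δ‖ / 2) * N) ≤ ‖Δ‖ / 4 := by
        calc 4 * K * (B * (‖Δ‖ * ‖Δ‖ / 2) * N) ≤
            4 * K * ((B + 1) * (‖Δ‖ * (1 / (8 * K * (B + 1) * N)) / 2) * N) := by
              gcongr
              linarith
          _ = ‖Δ‖ / 4 := by
              field_simp
              ring
      rw [mul_add] at h9
      linarith
    have h12 : ‖Δ‖ = 0 := le_antisymm (by linarith) (norm_nonneg _)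
    have h13 := norm_eq_zero.mp h12
    rw [hΔ] at h13
    exact sub_eq_zero.mp h13
  · intro X hX hX0
    have := hη v' hv' X hX
    rw [hX0, norm_zero, mul_zero] at this
    exact norm_le_zero_iff.mp this

theorem L2 (h : Hyp A π) (v : W) {δ : ℝ} (hδ : 0 < δ) :
    ∃ η > 0, ∀ v', ‖v' - v‖ < η → ∀ u ∈ FF A π v', ∃ w ∈ FF A π v, ‖u - w‖ < δ := by
  let C : Set R := {u : R | u ∈ unitary R ∧ Commute u A} ∩ ⋂ w ∈ FF A π v, {u | δ ≤ ‖u - w‖}
  have hC : IsCompact C := by
    refine (isCompact_K A).inter_right ?_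
    refine isClosed_biInter fun w _ => isClosed_le continuous_const ?_
    fun_prop
  have hpos : ∃ c > 0, ∀ u ∈ C, c ≤ ‖π u v - v‖ := by
    rcases C.eq_empty_or_nonempty with he | hne
    · exact ⟨1, one_pos, fun u hu => by rw [he] at hu; exact absurd hu (Set.notMem_empty _)⟩
    · have hcont : ContinuousOn (fun u => ‖π u v - v‖) C := by
        apply Continuous.continuousOn
        have := (ContinuousLinearMap.apply ℝ W v).continuous.comp h.cont
        exact (this.sub continuous_const).norm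
      obtain ⟨u0, hu0, hmin⟩ := hC.exists_isMinOn hne hcont
      refine ⟨‖π u0 v - v‖, ?_, fun u hu => hmin hu⟩
      rw [gt_iff_lt, norm_pos_iff]
      intro he
      have h1 : u0 ∈ FF A π v := ⟨hu0.1.1, hu0.1.2, sub_eq_zero.mp he⟩
      have h2 := Set.mem_iInter₂.mp hu0.2 u0 h1
      simp only [Set.mem_ofPred_eq, sub_self, norm_zero] at h2
      linarith
  obtain ⟨c, hc, hcC⟩ := hpos
  refine ⟨c / 2, by positivity, fun v' hv' u hu => ?_⟩
  by_contra hcon
  push Not at hcon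
  have huC : u ∈ C := ⟨⟨hu.1, hu.2.1⟩, Set.mem_iInter₂.mpr hcon⟩
  have h1 := hcC u huC
  have h2 : π u v - v = (v' - v) - π u (v' - v) := by
    rw [map_sub, hu.2.2]; abel
  have h3 : ‖π u v - v‖ ≤ ‖v' - v‖ + ‖v' - v‖ := by
    rw [h2]
    refine (norm_sub_le _ _).trans ?_
    rw [h.iso u hu.1]
  linarith

/-- Stabilisers of nearby points are smaller. -/
theorem semicont (h : Hyp A π) (G : Subgroup (unitary R))
    (hGA : ∀ g ∈ G, Commute (g : R) A)
    (hM : ∀ T : R, (∀ g ∈ G, Commute T (g : R)) → Commute T A → ∀ X : R, Commute X A →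
      Commute T X) {v : W} (hGv : ∀ g ∈ G, π (g : R) v = v)
    (hv : ∀ X ∈ kk A, fderiv ℝ π 1 X v = 0 → X = 0) :
    ∃ η > 0, ∀ v', ‖v' - v‖ < η → (∀ g ∈ G, π (g : R) v' = v') →
      (∀ X ∈ kk A, fderiv ℝ π 1 X v' = 0 → X = 0) ∧ FF A π v' ⊆ FF A π v := by
  classical
  obtain ⟨δ, hδ, η1, hη1, hL1⟩ := L1 h hv
  have hδ3 : 0 < min (δ / 3) (1 / 2) := by positivity
  obtain ⟨η2, hη2, hL2⟩ := L2 h v hδ3
  refine ⟨min η1 η2, by positivity, fun v' hv' hGv' => ?_⟩
  have hv'1 : ‖v' - v‖ < η1 := hv'.trans_le (min_le_left _ _)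
  have hv'2 : ‖v' - v‖ < η2 := hv'.trans_le (min_le_right _ _)
  refine ⟨(hL1 v' hv'1).2, ?_⟩
  have hsep' := (hL1 v' hv'1).1
  have hsep := (hL1 v (by simpa using hη1)).1
  have hfin := FF_finite h hδ hsep'
  have hψ : ∀ u : R, ∃ w : R, u ∈ FF A π v' → (w ∈ FF A π v ∧ ‖u - w‖ < min (δ / 3) (1 / 2)) := by
    intro u
    by_cases hu : u ∈ FF A π v'
    · obtain ⟨w, hw, hw2⟩ := hL2 v' hv'2 u hu
      exact ⟨w, fun _ => ⟨hw, hw2⟩⟩
    · exact ⟨0, fun hh => absurd hh hu⟩
  choose ψ hψ using hψ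
  have hψ1 : ∀ u ∈ FF A π v', ψ u ∈ FF A π v := fun u hu => (hψ u hu).1
  have hψ2 : ∀ u ∈ FF A π v', ‖u - ψ u‖ < δ / 3 := fun u hu => (hψ u hu).2.trans_le (min_le_left _ _)
  have hψ3 : ∀ u ∈ FF A π v', ‖u - ψ u‖ ≤ 1 / 2 :=
    fun u hu => ((hψ u hu).2.trans_le (min_le_right _ _)).le
  have hψmul : ∀ a ∈ FF A π v', ∀ b ∈ FF A π v', ψ (a * b) = ψ a * ψ b := by
    intro a ha b hb
    apply FF_sep h hsep (hψ1 _ (FF_mul h ha hb)) (FF_mul h (hψ1 a ha) (hψ1 b hb))
    have e : ψ (a * b) - ψ a * ψ b = - (a * b - ψ (a * b)) + (a * (b - ψ b) + (a - ψ a) * ψ b) := by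
      noncomm_ring
    rw [e]
    have e1 : ‖a * (b - ψ b)‖ = ‖b - ψ b‖ := CStarRing.norm_mem_unitary_mul _ ha.1
    have e2 : ‖(a - ψ a) * ψ b‖ = ‖a - ψ a‖ := CStarRing.norm_mul_mem_unitary _ (hψ1 b hb).1
    have e3 := norm_add_le (- (a * b - ψ (a * b))) (a * (b - ψ b) + (a - ψ a) * ψ b)
    have e4 := norm_add_le (a * (b - ψ b)) ((a - ψ a) * ψ b)
    rw [norm_neg] at e3
    have := hψ2 _ (FF_mul h ha hb)
    have := hψ2 _ ha
    have := hψ2 _ hb
    linarith
  have hψG : ∀ g ∈ G, ψ (g : R) = (g : R) := by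
    intro g hg
    have hg1 : (g : R) ∈ FF A π v' := ⟨g.2, hGA g hg, hGv' g hg⟩
    have hg2 : (g : R) ∈ FF A π v := ⟨g.2, hGA g hg, hGv g hg⟩
    apply FF_sep h hsep (hψ1 _ hg1) hg2
    rw [norm_sub_rev]
    have := hψ2 _ hg1
    linarith
  let T : R := ∑ u ∈ hfin.toFinset, ψ u * star u
  have hTw : ∀ w ∈ FF A π v', T * w = ψ w * T := by
    intro w hw
    simp only [T]
    rw [Finset.sum_mul, Finset.mul_sum]
    refine Finset.sum_nbij' (fun u => star w * u) (fun u => w * u) ?_ ?_ ?_ ?_ ?_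
    · intro u hu
      rw [Set.Finite.mem_toFinset] at hu ⊢
      exact FF_mul h (FF_star h hw) hu
    · intro u hu
      rw [Set.Finite.mem_toFinset] at hu ⊢
      exact FF_mul h hw hu
    · intro u hu
      rw [← mul_assoc, Unitary.mul_star_self_of_mem hw.1, one_mul]
    · intro u hu
      rw [← mul_assoc, Unitary.star_mul_self_of_mem hw.1, one_mul]
    · intro u hu
      rw [Set.Finite.mem_toFinset] at hu
      have e1 : ψ w * ψ (star w * u) = ψ u := by
        rw [← hψmul w hw _ (FF_mul h (FF_star h hw) hu), ← mul_assoc,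
          Unitary.mul_star_self_of_mem hw.1, one_mul]
      rw [← mul_assoc, e1, star_mul, star_star, ← mul_assoc]
  have hTG : ∀ g ∈ G, Commute T (g : R) := by
    intro g hg
    have hg1 : (g : R) ∈ FF A π v' := ⟨g.2, hGA g hg, hGv' g hg⟩
    have := hTw _ hg1
    rw [hψG g hg] at this
    exact this
  have hTA : Commute T A := by
    refine Commute.symm (Commute.sum_right _ _ _ fun u hu => ?_)
    rw [Set.Finite.mem_toFinset] at hu
    exact ((hψ1 u hu).2.1.mul_left (comm_star h.hA hu.2.1)).symm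
  have hone : (1 : R) ∈ FF A π v' := ⟨one_mem _, Commute.one_left _, h.one v'⟩
  have hm : 0 < hfin.toFinset.card := Finset.card_pos.mpr ⟨1, by
    rw [Set.Finite.mem_toFinset]; exact hone⟩
  have hm' : (0 : ℝ) < hfin.toFinset.card := by exact_mod_cast hm
  intro w hw
  have hwT : Commute T w := hM T hTG hTA w hw.2.1
  have h0 : (ψ w - w) * T = 0 := by
    rw [sub_mul, ← hTw w hw, hwT.eq, sub_self]
  have h1 : (hfin.toFinset.card : ℝ) • (ψ w - w) =
      (ψ w - w) * ∑ u ∈ hfin.toFinset, (1 - ψ u * star u) := by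
    rw [Finset.sum_sub_distrib, mul_sub]
    change _ = _ - (ψ w - w) * T
    rw [h0, sub_zero, Finset.sum_const, ← Nat.cast_smul_eq_nsmul ℝ, mul_smul_comm, mul_one]
  have h2 : ‖∑ u ∈ hfin.toFinset, (1 - ψ u * star u)‖ ≤ hfin.toFinset.card * (1 / 2) := by
    refine (norm_sum_le _ _).trans ?_
    have : ∀ u ∈ hfin.toFinset, ‖1 - ψ u * star u‖ ≤ 1 / 2 := by
      intro u hu
      rw [Set.Finite.mem_toFinset] at hu
      have e : 1 - ψ u * star u = (u - ψ u) * star u := by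
        rw [sub_mul, Unitary.mul_star_self_of_mem hu.1]
      rw [e, CStarRing.norm_mul_mem_unitary _ (Unitary.star_mem hu.1)]
      exact hψ3 u hu
    refine (Finset.sum_le_sum this).trans (le_of_eq ?_)
    rw [Finset.sum_const, nsmul_eq_mul]
  have h3 : (hfin.toFinset.card : ℝ) * ‖ψ w - w‖ ≤
      ‖ψ w - w‖ * (hfin.toFinset.card * (1 / 2)) := by
    have e : ‖(hfin.toFinset.card : ℝ) • (ψ w - w)‖ = hfin.toFinset.card * ‖ψ w - w‖ := by
      rw [norm_smul, Real.norm_of_nonneg hm'.le]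
    rw [← e, h1]
    refine (norm_mul_le _ _).trans ?_
    gcongr
  have h4 : ‖ψ w - w‖ = 0 := by
    by_contra hne
    have hpos : 0 < ‖ψ w - w‖ := lt_of_le_of_ne (norm_nonneg _) (Ne.symm hne)
    nlinarith [mul_pos hm' hpos]
  have h5 := sub_eq_zero.mp (norm_eq_zero.mp h4)
  rw [← h5]
  exact hψ1 w hw

theorem gen_abs (h : Hyp A π) (G : Subgroup (unitary R)) [Finite G]
    (hGA : ∀ g ∈ G, Commute (g : R) A)
    (hM : ∀ T : R, (∀ g ∈ G, Commute T (g : R)) → Commute T A → ∀ X : R, Commute X A →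
      Commute T X)
    (V : Submodule ℝ W) (hV : ∀ v ∈ V, ∀ g ∈ G, π (g : R) v = v)
    (hst : ∀ u : unitary R, Commute (u : R) A → (∀ v ∈ V, π (u : R) v = v) → u ∈ G) :
    ∃ v ∈ V, ∀ u : unitary R, Commute (u : R) A → π (u : R) v = v → u ∈ G := by
  classical
  let P : Set ℕ := {m | ∃ v ∈ V, (∀ X ∈ kk A, fderiv ℝ π 1 X v = 0 → X = 0) ∧
    (FF A π v).ncard = m}
  have hP : ∃ m, m ∈ P := by
    obtain ⟨v, hv, hv2⟩ := step1 h G hGA hM V hV hst
    exact ⟨_, v, hv, hv2, rfl⟩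
  obtain ⟨v, hv, hv2, hv3⟩ := Nat.find_spec hP
  have hmin : ∀ m ∈ P, Nat.find hP ≤ m := fun m hm => Nat.find_min' hP hm
  obtain ⟨δ, hδ, η1, hη1, hL1⟩ := L1 h hv2
  have hfin : (FF A π v).Finite := FF_finite h hδ (hL1 v (by simpa using hη1)).1
  obtain ⟨η, hη, hsemi⟩ := semicont h G hGA hM (hV v hv) hv2
  refine ⟨v, hv, fun u huA hu => hst u huA fun S hS => ?_⟩
  -- choose t
  obtain ⟨t, ht, ht2⟩ : ∃ t : ℝ, t ≠ 0 ∧ ‖(v + t • S) - v‖ < η := by
    refine ⟨η / (2 * (‖S‖ + 1)), by positivity, ?_⟩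
    rw [add_sub_cancel_left, norm_smul, Real.norm_of_nonneg (by positivity)]
    rw [div_mul_eq_mul_div, div_lt_iff₀ (by positivity)]
    nlinarith [norm_nonneg S]
  have hvS : v + t • S ∈ V := V.add_mem hv (V.smul_mem t hS)
  obtain ⟨h1, h2⟩ := hsemi _ ht2 (hV _ hvS)
  have h3 : (FF A π v).ncard ≤ (FF A π (v + t • S)).ncard := by
    rw [hv3]
    exact hmin _ ⟨_, hvS, h1, rfl⟩
  have h4 : FF A π (v + t • S) = FF A π v := Set.eq_of_subset_of_ncard_le h2 h3 hfin
  have h5 : (u : R) ∈ FF A π (v + t • S) := by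
    rw [h4]
    exact ⟨u.2, huA, hu⟩
  have h6 := h5.2.2
  rw [map_add, map_smul, hu] at h6
  have h7 : t • π (u : R) S = t • S := add_left_cancel h6
  exact smul_right_injective W ht h7

end abs

open scoped Matrix.Norms.L2Operator in
/-- GEN: the generic stabiliser is the pointwise stabiliser. -/
theorem gen : Pool.Agent.H24.RSM.GenStmt := by
  intro n G W _ _ _ π A V hG hA hGA hM hc hd hm hi hV hst
  have h : Hyp A π := by
    refine ⟨hA.eq, hc, hd, fun u hu v hv => hm ⟨u, hu⟩ ⟨v, hv⟩, fun u hu w => hi ⟨u, hu⟩ w⟩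
  haveI : Finite G := hG
  exact gen_abs h G hGA hM V hV hst

end Pool.Agent.H48.RSM
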